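import Pool.Agent.H369.SM.Stm

/-!
Lifting functions to the smoothing.
-/

set_option autoImplicit false

namespace Pool.Agent.H803.SM

open Pool.Agent.TH549.CK Pool.Agent.H369.SM

section

variable {F 𝕂 P : Type} [Field F] [Field 𝕂] [Algebra F 𝕂] {m : ℕ}

/-- the branches -/
def nd (N : Nodes P m) : Fin m ⊕ Fin m → P := Sum.elim N.p N.q

theorem nd_ne (N : Nodes P m) (j : Fin m ⊕ Fin m) : nd N j ≠ N.o := by
  rcases j with i | i
  · exact N.po i
  · exact N.qo i

theorem nd_inj (N : Nodes P m) : Function.Injective (nd N) := N.inj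

/-- the divisor `n o + k ∑ nodes` -/
noncomputable def DD (N : Nodes P m) (n k : ℕ) : P →₀ ℤ :=
  Finsupp.single N.o (n : ℤ) + ∑ j : Fin m ⊕ Fin m, Finsupp.single (nd N j) (k : ℤ)

theorem DD_apply (N : Nodes P m) (n k : ℕ) (x : P) : DD N n k x =
    Finsupp.single N.o (n : ℤ) x + ∑ j : Fin m ⊕ Fin m, Finsupp.single (nd N j) (k : ℤ) x := by
  unfold DD
  rw [Finsupp.add_apply, Finsupp.finsetSum_apply]

theorem DD_o (N : Nodes P m) (n k : ℕ) : DD N n k N.o = n := by
  classical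
  rw [DD_apply, Finsupp.single_eq_same, Finset.sum_eq_zero, add_zero]
  intro j _
  exact Finsupp.single_eq_of_ne (Ne.symm (nd_ne N j))

theorem DD_nd (N : Nodes P m) (n k : ℕ) (j : Fin m ⊕ Fin m) : DD N n k (nd N j) = k := by
  classical
  rw [DD_apply, Finsupp.single_eq_of_ne (nd_ne N j), zero_add, Finset.sum_eq_single j]
  · exact Finsupp.single_eq_same
  · intro b _ hb
    exact Finsupp.single_eq_of_ne fun h => hb (nd_inj N h).symm
  · intro h
    exact absurd (Finset.mem_univ j) h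

theorem DD_else (N : Nodes P m) (n k : ℕ) {x : P} (h0 : x ≠ N.o) (h1 : ∀ j, x ≠ nd N j) :
    DD N n k x = 0 := by
  classical
  rw [DD_apply, Finsupp.single_eq_of_ne h0, zero_add]
  exact Finset.sum_eq_zero fun j _ => Finsupp.single_eq_of_ne (h1 j)

theorem DD_zero (N : Nodes P m) (n : ℕ) : DD N n 0 = nO N n := by
  unfold DD nO
  rw [Nat.cast_zero]
  simp only [Finsupp.single_zero, Finset.sum_const_zero, add_zero]

theorem DD_deg (N : Nodes P m) (n k : ℕ) :
    ((DD N n k).sum fun _ k => k) = (n : ℤ) + 2 * m * k := by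
  have h1 : ∀ D : P →₀ ℤ, (D.sum fun _ k => k) =
      Finsupp.liftAddHom (fun _ : P => AddMonoidHom.id ℤ) D := fun D => rfl
  rw [h1]
  unfold DD
  rw [map_add, map_sum]
  simp only [Finsupp.liftAddHom_apply_single, AddMonoidHom.id_apply, Finset.sum_const,
    Finset.card_univ, Fintype.card_sum, Fintype.card_fin, nsmul_eq_mul]
  push_cast
  ring

theorem exists_step (h2 : S_sur) (C : Crv F 𝕂 P) {h : ℕ} (hRR : C.RR h) (N : Nodes P m) {n : ℕ}
    (hn : 2 * (h + m) ≤ n + 1) (k : ℕ) (c : Fin m ⊕ Fin m → ℕ → F) :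
    ∃ f ∈ C.L (DD N n k), ∀ (j : Fin m ⊕ Fin m) (l : ℕ), l ≤ k →
      (C.E (nd N j) f).coeff ((l : ℤ) - k) = c j l := by
  obtain ⟨f, hf, h3⟩ := h2 F 𝕂 P C h hRR (m + m) k (nd N ∘ finSumFinEquiv.symm)
    ((nd_inj N).comp finSumFinEquiv.symm.injective) (DD N n k) (by
      rw [DD_deg]
      push_cast
      have h4 : (2 * (h + m) : ℤ) ≤ n + 1 := by exact_mod_cast hn
      linarith) (fun i l => c (finSumFinEquiv.symm i) l)
  refine ⟨f, hf, fun j l hl => ?_⟩
  have h5 := h3 (finSumFinEquiv j) ⟨l, by omega⟩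
  simp only [Function.comp_apply, Equiv.symm_apply_apply] at h5
  rw [DD_nd] at h5
  exact h5

end

theorem lift (h1 : S_mem) (h2 : S_sur) : S_lift := by
  intro F 𝕂 P _ _ _ C h hRR m N n hn f₀ hf₀ hpq
  choose next hnext1 hnext2 using fun (k : ℕ) (prev : ℕ → 𝕂) => exists_step h2 C hRR N hn k
    (fun j l => if l < k then (C.E (nd N j.swap) (prev l)).coeff ((k : ℤ) - l) else 0)
  obtain ⟨s, hs⟩ := P2.exists_seq (0 : 𝕂) (fun k prev => if k = 0 then f₀ else next k prev)
  have hs0 : s 0 = f₀ := by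
    rw [hs 0]
    simp
  have hs1 : ∀ k, k ≠ 0 → s k = next k (fun l => if l < k then s l else 0) := by
    intro k hk
    rw [hs k]
    simp only [hk, if_false]
  have hL : ∀ k, s k ∈ C.L (DD N n k) := by
    intro k
    by_cases hk : k = 0
    · subst hk
      rw [hs0, DD_zero]
      exact hf₀
    · rw [hs1 k hk]
      exact hnext1 k _
  have hlt : ∀ (j : Fin m ⊕ Fin m) (k l : ℕ), l < k →
      (C.E (nd N j) (s k)).coeff ((l : ℤ) - k) =
        (C.E (nd N j.swap) (s l)).coeff ((k : ℤ) - l) := by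
    intro j k l hl
    have h3 := hnext2 k (fun l => if l < k then s l else 0) j l hl.le
    rw [← hs1 k (by omega)] at h3
    rw [h3]
    simp only [hl, if_true]
  have hdiag : ∀ (j : Fin m ⊕ Fin m) (k : ℕ), k ≠ 0 → (C.E (nd N j) (s k)).coeff 0 = 0 := by
    intro j k hk
    have h3 := hnext2 k (fun l => if l < k then s l else 0) j k le_rfl
    rw [← hs1 k hk, sub_self] at h3
    rw [h3]
    simp
  refine ⟨PowerSeries.mk s, (h1 F 𝕂 P C m N _).2 ⟨fun x hx hp hq k l hl => ?_, fun i => ⟨?_, ?_, ?_⟩⟩,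
    ?_, ?_⟩
  · rw [PowerSeries.coeff_mk]
    refine hL k x l ?_
    rw [DD_else N n k hx]
    · rwa [neg_zero]
    · rintro (i | i)
      · exact hp i
      · exact hq i
  · intro k l hl
    rw [PowerSeries.coeff_mk]
    refine hL k (nd N (Sum.inl i)) l ?_
    rwa [DD_nd]
  · intro k l hl
    rw [PowerSeries.coeff_mk]
    refine hL k (nd N (Sum.inr i)) l ?_
    rwa [DD_nd]
  · intro a b
    rw [PowerSeries.coeff_mk, PowerSeries.coeff_mk]
    rcases Nat.lt_trichotomy a b with h3 | h3 | h3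
    · exact hlt (Sum.inl i) b a h3
    · subst h3
      rw [sub_self]
      by_cases ha : a = 0
      · subst ha
        rw [hs0]
        exact hpq i
      · exact (hdiag (Sum.inl i) a ha).trans (hdiag (Sum.inr i) a ha).symm
    · exact (hlt (Sum.inr i) a b h3).symm
  · intro k l hl
    rw [PowerSeries.coeff_mk]
    refine hL k N.o l ?_
    rwa [DD_o]
  · rw [PowerSeries.coeff_mk, hs0]

end Pool.Agent.H803.SM
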